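import Pool.Agent.Y106.TB.Alg
import Pool.Agent.Y106.TB.Ineq

/-!
# MP_b669e1_gt: all tubes about even-dimensional spheres are algebraically integrable

For every odd `k`, every even `m` and every `0 < ε < 1` the tube
`(|x| - 1)² + |y|² ≤ ε²`, `x ∈ ℝ^k`, `y ∈ ℝ^m`, in `ℝ^(k+m)` is an algebraically integrable body with
`C^∞`-smooth boundary which is not an ellipsoid; its boundary is connected if `k ≥ 3` and `m ≥ 2`; and
two of these tubes, in spaces of any dimensions, are affinely equivalent only if their parameters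
`(k, m, ε)` are equal.
-/

set_option autoImplicit false

namespace Pool.Agent.Results.MP_b669e1_gt.AllTubes

open Pool.Agent.Y106.TB
open Pool.Agent.Helper99.Tube (IsBody HasSmoothBoundary IsAlgebraicallyIntegrable IsEllipsoid)

/-- **Every tube of radius `0 < ε < 1` about the unit sphere of `ℝ^k` in `ℝ^k × ℝ^m`, `k` odd and `m`
even, is an algebraically integrable body with `C^∞`-smooth boundary which is not an ellipsoid; for
`k ≥ 3`, `m ≥ 2` the boundary is connected; two tubes are affinely equivalent only if they have the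
same `(k, m, ε)`.** -/
theorem result :
    (∀ (k m : ℕ) (ε : ℝ), Odd k → Even m → 0 < ε → ε < 1 →
      IsBody (Tube k m ε) ∧ HasSmoothBoundary (Tube k m ε) ∧
      IsAlgebraicallyIntegrable (Tube k m ε) ∧ ¬ IsEllipsoid (Tube k m ε) ∧
      (3 ≤ k → 2 ≤ m → IsConnected (frontier (Tube k m ε)))) ∧
    ∀ (k m k' m' : ℕ) (ε ε' : ℝ), Odd k → Odd k' → 0 < ε → ε < 1 → 0 < ε' → ε' < 1 →
      ∀ g : EuclideanSpace ℝ (Fin (k + m)) ≃ᵃ[ℝ] EuclideanSpace ℝ (Fin (k' + m')),
        g '' Tube k m ε = Tube k' m' ε' → k = k' ∧ m = m' ∧ ε = ε' := by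
  constructor
  · intro k m ε hk hm h0 h1
    obtain ⟨l, rfl⟩ := hk
    obtain ⟨m', rfl⟩ := hm
    rw [← two_mul]
    exact ⟨isBody_Tube h0, hasSmoothBoundary_Tube h0 h1, isAlgebraicallyIntegrable_Tube l m' h0 h1,
      not_isEllipsoid_Tube h0 h1, fun h2 h3 => isConnected_frontier_Tube h0 h1 (by omega) (by omega)⟩
  · intro k m k' m' ε ε' hk hk' h0 h1 h0' h1' g hg
    exact rigid hk.pos hk'.pos h0 h1 h0' h1' g hg

end Pool.Agent.Results.MP_b669e1_gt.AllTubes
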